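import Pool.Agent.SGL.StmtsG

/-!
# Squad SGL (MP_41797f_co), rows SML and SIG
-/

set_option autoImplicit false

namespace Pool.Agent.SGL.H49

open Pool.Agent.SGE Pool.Agent.SGP Pool.Agent.SGY Pool.Agent.SGD Pool.Agent.SGL

/-- Row SML. -/
theorem sml : SmlStmt := by
  intro n G hn
  refine ⟨?_, ?_, ?_⟩
  · intro i j hij
    have h1 : ((i : ℕ) : ℝ) = ((j : ℕ) : ℝ) := congrArg Prod.fst hij
    exact Fin.ext (by exact_mod_cast h1)
  · intro a b c d hab hcd hne
    exfalso
    apply hne
    have h1 : a ≠ b := hab.ne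
    have h2 : c ≠ d := hcd.ne
    have h1' : (a : ℕ) ≠ b := fun h => h1 (Fin.ext h)
    have h2' : (c : ℕ) ≠ d := fun h => h2 (Fin.ext h)
    have ha := a.2
    have hb := b.2
    have hc := c.2
    have hd := d.2
    rw [Sym2.eq_iff]
    by_cases h : (a : ℕ) = c
    · exact Or.inl ⟨Fin.ext h, Fin.ext (by omega)⟩
    · exact Or.inr ⟨Fin.ext (by omega), Fin.ext (by omega)⟩
  · intro v a b hab _
    have h1' : (a : ℕ) ≠ b := fun h => hab.ne (Fin.ext h)
    have ha := a.2
    have hb := b.2
    have hv := v.2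
    by_cases h : (v : ℕ) = a
    · exact Or.inl (Fin.ext h)
    · exact Or.inr (Fin.ext (by omega))

/-- Row SIG. -/
theorem sig : SigStmt := by
  classical
  intro n t lev
  have hcard : Fintype.card {w : Fin n // w ≠ t} = n - 1 := by
    rw [Fintype.card_subtype_compl]
    simp
  obtain ⟨e⟩ : Nonempty (Fin (n - 1) ≃ {w : Fin n // w ≠ t}) :=
    ⟨(Fintype.equivFinOfCardEq hcard).symm⟩
  obtain ⟨f, hf⟩ : ∃ f : Fin (n - 1) → ℕ, f = fun j => lev (e j).1 := ⟨_, rfl⟩
  have hmono : Monotone (f ∘ Tuple.sort f) := Tuple.monotone_sort f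
  have hsum : ∀ w : Fin n, lev w ≤ ∑ w, lev w := fun w =>
    Finset.single_le_sum (f := lev) (fun _ _ => Nat.zero_le _) (Finset.mem_univ w)
  refine ⟨fun j => if h : j < n - 1 then f (Tuple.sort f ⟨j, h⟩) else ∑ w, lev w, ?_, ?_⟩
  · intro j j' hjj
    show (if h : j < n - 1 then f (Tuple.sort f ⟨j, h⟩) else ∑ w, lev w) ≤
      if h : j' < n - 1 then f (Tuple.sort f ⟨j', h⟩) else ∑ w, lev w
    by_cases h' : j' < n - 1
    · have h : j < n - 1 := by omega
      rw [dif_pos h, dif_pos h']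
      exact hmono (show (⟨j, h⟩ : Fin (n - 1)) ≤ ⟨j', h'⟩ from hjj)
    · rw [dif_neg h']
      by_cases h : j < n - 1
      · rw [dif_pos h, hf]
        exact hsum _
      · rw [dif_neg h]
  · intro i
    refine Finset.card_bij (fun j hj => (e (Tuple.sort f ⟨j, by
      have := (Finset.mem_filter.1 hj).1
      exact Finset.mem_range.1 this⟩)).1) ?_ ?_ ?_
    · intro j hj
      have h1 := Finset.mem_filter.1 hj
      have h2 := Finset.mem_range.1 h1.1
      have h3 := h1.2
      beta_reduce at h3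
      rw [dif_pos h2] at h3
      have h4 : f (Tuple.sort f ⟨j, h2⟩) = lev (e (Tuple.sort f ⟨j, h2⟩)).1 := congrFun hf _
      exact Finset.mem_filter.2 ⟨Finset.mem_univ _, (e _).2, h4.symm.trans h3⟩
    · intro j hj j' hj' h
      have h1 := e.injective (Subtype.ext h)
      have h2 := (Tuple.sort f).injective h1
      exact congrArg Fin.val h2
    · intro w hw
      have h1 := (Finset.mem_filter.1 hw).2
      obtain ⟨j, hj⟩ := (Tuple.sort f).surjective (e.symm ⟨w, h1.1⟩)
      have hval : e (Tuple.sort f j) = ⟨w, h1.1⟩ := by rw [hj, Equiv.apply_symm_apply]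
      refine ⟨j, ?_, ?_⟩
      · refine Finset.mem_filter.2 ⟨Finset.mem_range.2 j.2, ?_⟩
        beta_reduce
        rw [dif_pos j.2]
        have h2 : f (Tuple.sort f j) = lev (e (Tuple.sort f j)).1 := congrFun hf _
        show f (Tuple.sort f j) = i
        rw [h2, hval]
        exact h1.2
      · show (e (Tuple.sort f ⟨(j : ℕ), _⟩)).1 = w
        have : (e (Tuple.sort f j)).1 = w := by rw [hval]
        exact this

end Pool.Agent.SGL.H49
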